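import Pool.Agent.TH137.DG.Conv

/-!
# A smooth dg category whose noncommutative motive is not Schur-finite

Let `k` be a field of characteristic zero.  There is a smooth dg category `A` over `k` (a
finite semi-free dg algebra with five generators of degree `0` and six generators of
degree `-1`) whose image under every Morita invariant with values in a `ℚ`-linear symmetric
monoidal category which sends `k` to the (non zero) unit is not Schur-finite.  The motive
functor `U(-)_ℚ` with values in `NMot(k)_ℚ` is such an invariant, and this answers question Q1
in the negative.

The functor `U` is defined on any full subcategory of the category of small dg categories, given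
by a property `S` of dg categories which is invariant under Morita equivalences and holds for
`A`, for `k` and for the empty dg category: for example on all small dg categories, or on the
smooth ones.
-/

set_option autoImplicit false

open CategoryTheory MonoidalCategory Limits

namespace Pool.Agent.Results.MP_b5fdc6_ag.NotSchurFinite

open Pool.Agent.TH137.NC
open Pool.Agent.TH137.DG (IsSchurFinite)

universe v u

/-- For each field `k` of characteristic zero there is a smooth dg category `A` over `k` such that
`U A` is not Schur-finite, for every functor `U` from small dg categories (or from a full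
subcategory `S` which is closed under Morita equivalences and contains `A`, `k` and the
empty dg category) to a `ℚ`-linear symmetric monoidal category `C` with non zero unit which
inverts Morita equivalences, sends the empty dg category to a zero object and sends `k` to the
unit. -/
theorem result (k : Type) [Field k] [CharZero k] :
    ∃ A : DGCat.{0, 0} k, IsSmooth A ∧
      ∀ (S : ObjectProperty (DGCat.{0, 0} k)) (hA : S A) (hk : S (DGCat.base k))
        (h0 : S (DGCat.empty k)),
        (∀ (B B' : DGCat.{0, 0} k) (F : B ⟶ B'), IsMorita F → (S B ↔ S B')) →
        ∀ (C : Type u) [Category.{v} C] [MonoidalCategory C] [SymmetricCategory C]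
          [Preadditive C] [Linear ℚ C] [MonoidalPreadditive C] (U : S.FullSubcategory ⥤ C),
          (∀ (B B' : S.FullSubcategory) (F : B ⟶ B'), IsMorita F.hom → IsIso (U.map F)) →
          IsZero (U.obj ⟨DGCat.empty k, h0⟩) →
          Nonempty (U.obj ⟨DGCat.base k, hk⟩ ≅ 𝟙_ C) →
          ¬ IsZero (𝟙_ C) →
          ¬ IsSchurFinite (U.obj ⟨A, hA⟩) :=
  ⟨Pool.Agent.TH137.cA (Pool.Agent.TH137.DG.XA k).toCat,
    Pool.Agent.TH137.cA_smooth (Pool.Agent.TH137.DG.stage_smooth
      (Pool.Agent.TH137.DG.rel k)),
    fun S hA hk h0 hM _ _ _ _ _ _ _ U hU hZ h1 hne =>
      Pool.Agent.TH137.nnot_schur k S hM hA hk h0 U hU hZ h1 hne⟩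

end Pool.Agent.Results.MP_b5fdc6_ag.NotSchurFinite
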